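import Pool.Agent.K4H83.LP.Final

/-!
# Every linear Laurent phenomenon algebra is of finite type

The definitions (seeds, mutation, LP algebras, normalized, linear, finite type) are in
`Pool/Agent/K4H83/LP/Defs.lean`.
-/

namespace Pool.Agent.Results.MP_d6d014_co.FiniteType

open MvPolynomial Pool.Agent.K4H83.LP

universe u

/-- Let `R` be a unique factorization domain and `n` a natural number, and let `A` be a normalized
LP algebra in the field of rational functions in `n` variables over `Frac R` (the fraction field of
`R[X_1, …, X_n]`) that has a seed with exchange polynomials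
`F_i = a_i + ∑_{j ≠ i} c_{ij} x_j`, `a_i, c_{ij} ∈ R`. Then `A` has finitely many seeds. -/
theorem result (R : Type u) [CommRing R] [IsDomain R] [UniqueFactorizationMonoid R] (n : ℕ)
    (A : LPAlgebra R (FractionRing (MvPolynomial (Fin n) R)) n)
    (hN : A.IsNormalized) (hL : A.HasLinearSeed) : A.IsFiniteType :=
  A.finite_seeds hN hL

end Pool.Agent.Results.MP_d6d014_co.FiniteType
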